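import Mathlib
import Pool.Agent.N463.MI.Stm

/-!
Project MI, part D02: the pointwise majorant of degree 1.
-/

set_option autoImplicit false

namespace Pool.Agent.N2.MI.D02

open Real

/-- the exponent -/
noncomputable def H (c ρ : ℝ) : ℝ := 2 * (ρ ^ 2 / 2 - ρ ^ 4 / 8 - (ρ - ρ ^ 3 / 3) * c)

theorem hasDerivAt_H (c ρ : ℝ) :
    HasDerivAt (H c) (2 * (ρ - ρ ^ 3 / 2 - (1 - ρ ^ 2) * c)) ρ := by
  have h2 : HasDerivAt (fun x : ℝ => x ^ 2 / 2) (((2 : ℕ) : ℝ) * ρ ^ (2 - 1) / 2) ρ :=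
    (hasDerivAt_pow 2 ρ).div_const 2
  have h4 : HasDerivAt (fun x : ℝ => x ^ 4 / 8) (((4 : ℕ) : ℝ) * ρ ^ (4 - 1) / 8) ρ :=
    (hasDerivAt_pow 4 ρ).div_const 8
  have h3 : HasDerivAt (fun x : ℝ => x ^ 3 / 3) (((3 : ℕ) : ℝ) * ρ ^ (3 - 1) / 3) ρ :=
    (hasDerivAt_pow 3 ρ).div_const 3
  have h := (((h2.sub h4).sub (((hasDerivAt_id ρ).sub h3).mul_const c)).const_mul 2)
  refine h.congr_deriv ?_
  norm_num
  ring

theorem hasDerivAt_x (c ρ : ℝ) :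
    HasDerivAt (fun r : ℝ => 1 - 2 * r * c + r ^ 2) (-(2 * c) + 2 * ρ) ρ := by
  have h2 : HasDerivAt (fun x : ℝ => x ^ 2) (((2 : ℕ) : ℝ) * ρ ^ (2 - 1)) ρ := hasDerivAt_pow 2 ρ
  have h1 : HasDerivAt (fun x : ℝ => 2 * x * c) (2 * 1 * c) ρ :=
    ((hasDerivAt_id ρ).const_mul 2).mul_const c
  have h := ((hasDerivAt_const ρ (1 : ℝ)).sub h1).add h2
  refine h.congr_deriv ?_
  norm_num

/-- the quotient -/
noncomputable def G (c ρ : ℝ) : ℝ := (1 - 2 * ρ * c + ρ ^ 2) * exp (-(H c ρ))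

theorem hasDerivAt_G (c ρ : ℝ) :
    HasDerivAt (G c) (-(ρ * (1 - ρ ^ 2) * (2 * c - ρ) ^ 2) * exp (-(H c ρ))) ρ := by
  have h := (hasDerivAt_x c ρ).mul ((hasDerivAt_H c ρ).neg.exp)
  refine h.congr_deriv ?_
  simp only [Pi.neg_apply]
  ring

theorem G_le (c ρ : ℝ) (h0 : 0 ≤ ρ) (h1 : ρ ≤ 1) : G c ρ ≤ 1 := by
  have hanti : AntitoneOn (G c) (Set.Icc 0 1) := by
    apply antitoneOn_of_deriv_nonpos (convex_Icc 0 1)
    · exact fun x _ => (hasDerivAt_G c x).continuousAt.continuousWithinAt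
    · exact fun x _ => (hasDerivAt_G c x).differentiableAt.differentiableWithinAt
    · intro x hx
      rw [interior_Icc] at hx
      rw [(hasDerivAt_G c x).deriv]
      have hx2 : 0 ≤ 1 - x ^ 2 := by nlinarith [hx.1, hx.2]
      have := mul_nonneg (mul_nonneg (mul_nonneg hx.1.le hx2) (sq_nonneg (2 * c - x)))
        (exp_pos (-(H c x))).le
      linarith
  have h := hanti (Set.left_mem_Icc.2 zero_le_one) ⟨h0, h1⟩ h0
  have hG0 : G c 0 = 1 := by simp [G, H]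
  rwa [hG0] at h

end Pool.Agent.N2.MI.D02

namespace Pool.Agent.N463.MI

open Pool.Agent.N2.MI.D02 in
/-- the pointwise majorant of degree 1 -/
theorem t_D02 : D02 := by
  intro ρ φ h0 h1
  have h := G_le (Real.cos φ) ρ h0 h1
  have hpos := Real.exp_pos (H (Real.cos φ) ρ)
  have h2 : (1 - 2 * ρ * Real.cos φ + ρ ^ 2) * Real.exp (-(H (Real.cos φ) ρ)) *
      Real.exp (H (Real.cos φ) ρ) ≤ 1 * Real.exp (H (Real.cos φ) ρ) :=
    mul_le_mul_of_nonneg_right h hpos.le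
  rw [mul_assoc, ← Real.exp_add, neg_add_cancel, Real.exp_zero, mul_one, one_mul] at h2
  exact h2

end Pool.Agent.N463.MI
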